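import Pool.Agent.W788.NW.Stm

/-! # Project NW (helper788), part INV: the semigroup on a closed set of states -/

set_option autoImplicit false

namespace Pool.Agent.W723.NW

open Finset
open Pool.Agent.W788.NV Pool.Agent.W788.NW

theorem mgen_mulVec {S ι : Type} [Fintype S] [DecidableEq S] [Fintype ι] (r : ι → ℝ)
    (m : ι → S → S) (G : S → ℝ) (x : S) : Matrix.mulVec (mgen r m) G x = gf r m G x := by
  simp only [Matrix.mulVec, dotProduct, mgen, gf]
  simp only [Finset.sum_mul]
  rw [Finset.sum_comm]
  apply Finset.sum_congr rfl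
  intro e _
  have h1 : ∀ y : S, r e * ((if y = m e x then (1:ℝ) else 0) - (if y = x then 1 else 0)) * G y =
      r e * ((if y = m e x then G y else 0) - (if y = x then G y else 0)) := by
    intro y
    split_ifs <;> ring
  simp only [h1]
  rw [← Finset.mul_sum, Finset.sum_sub_distrib]
  simp

theorem hasSum_mulVec {S : Type} [Fintype S] [DecidableEq S] (A : Matrix S S ℝ) (G : S → ℝ)
    (x : S) : HasSum (fun n : ℕ => (((n.factorial : ℝ)⁻¹) • A ^ n).mulVec G x)
      ((NormedSpace.exp A).mulVec G x) := by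
  letI : NormedRing (Matrix S S ℝ) := Matrix.linftyOpNormedRing
  letI : NormedAlgebra ℝ (Matrix S S ℝ) := Matrix.linftyOpNormedAlgebra
  have h := NormedSpace.exp_series_hasSum_exp' (𝕂 := ℝ) A
  let φ : Matrix S S ℝ →+ ℝ :=
    { toFun := fun M => M.mulVec G x
      map_zero' := by simp
      map_add' := by
        intro M N
        simp [Matrix.add_mulVec] }
  have hφ : Continuous φ := by
    show Continuous (fun M : Matrix S S ℝ => M.mulVec G x)
    simp only [Matrix.mulVec, dotProduct]
    fun_prop
  exact h.map φ hφ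

section
variable {S ι : Type} [Fintype S] [DecidableEq S] [Fintype ι] (r : ι → ℝ)
    (m : ι → S → S) (I : S → Prop) (hI : ∀ e x, I x → r e ≠ 0 → I (m e x))

include hI in
theorem gf_congr (F H : S → ℝ) (h : ∀ y, I y → F y = H y) (x : S) (hx : I x) :
    gf r m F x = gf r m H x := by
  unfold gf
  refine Finset.sum_congr rfl fun e _ => ?_
  by_cases he : r e = 0
  · rw [he, zero_mul, zero_mul]
  · rw [h _ (hI e x hx he), h x hx]

include hI in
theorem sg_congr (F H : S → ℝ) (h : ∀ y, I y → F y = H y) (t : ℝ) (x : S) (hx : I x) :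
    sg r m t F x = sg r m t H x := by
  have hpow : ∀ (n : ℕ) (y : S), I y → Matrix.mulVec ((t • mgen r m) ^ n) F y =
      Matrix.mulVec ((t • mgen r m) ^ n) H y := by
    intro n
    induction n with
    | zero =>
      intro y hy
      simp only [pow_zero, Matrix.one_mulVec]
      exact h y hy
    | succ n ih =>
      intro y hy
      rw [pow_succ', ← Matrix.mulVec_mulVec, ← Matrix.mulVec_mulVec, Matrix.smul_mulVec,
        Matrix.smul_mulVec]
      simp only [Pi.smul_apply]
      rw [mgen_mulVec, mgen_mulVec, gf_congr r m I hI _ _ ih y hy]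
  have h1 := hasSum_mulVec (t • mgen r m) F x
  have h2 := hasSum_mulVec (t • mgen r m) H x
  have h3 : (fun n : ℕ => (((n.factorial : ℝ)⁻¹) • (t • mgen r m) ^ n).mulVec F x) =
      (fun n : ℕ => (((n.factorial : ℝ)⁻¹) • (t • mgen r m) ^ n).mulVec H x) := by
    funext n
    rw [Matrix.smul_mulVec, Matrix.smul_mulVec]
    simp only [Pi.smul_apply]
    rw [hpow n x hx]
  rw [h3] at h1
  exact h1.unique h2

include hI in
theorem sg_mono (hMK : MK) (F H : S → ℝ) (x : S) (hx : I x) (t : ℝ) (hr : ∀ e, 0 ≤ r e)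
    (ht : 0 ≤ t) (h : ∀ y, I y → F y ≤ H y) : sg r m t F x ≤ sg r m t H x := by
  classical
  have e1 := sg_congr r m I hI F (fun y => if I y then F y else 0)
    (fun y hy => by rw [if_pos hy]) t x hx
  have e2 := sg_congr r m I hI H (fun y => if I y then H y else 0)
    (fun y hy => by rw [if_pos hy]) t x hx
  rw [e1, e2]
  refine hMK.mono S ι r m _ _ x t hr ht fun y => ?_
  by_cases hy : I y
  · rw [if_pos hy, if_pos hy]; exact h y hy
  · rw [if_neg hy, if_neg hy]

include hI in
theorem sg_expb (hMK : MK) (F : S → ℝ) (x : S) (hx : I x) (t c : ℝ) (hr : ∀ e, 0 ≤ r e)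
    (ht : 0 ≤ t) (h : ∀ y, I y → gf r m F y ≤ c * F y) :
    sg r m t F x ≤ Real.exp (c * t) * F x := by
  have hcst : ∀ s : ℝ, sg r m s (fun y => c * F y) x = c * sg r m s F x := by
    intro s
    have := hMK.lin S ι Unit r m (fun _ => c) (fun _ => F) x s
    simpa using this
  have hder : ∀ s : ℝ, HasDerivAt (fun s => Real.exp (-(c * s)) * sg r m s F x)
      (Real.exp (-(c * s)) * (sg r m s (gf r m F) x - c * sg r m s F x)) s := by
    intro s
    have h1 : HasDerivAt (fun s : ℝ => Real.exp (-(c * s))) (Real.exp (-(c * s)) * (-c)) s := by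
      have := (((hasDerivAt_id s).const_mul c).neg).exp
      simpa using this
    have h2 := h1.mul (hMK.deriv S ι r m F x s)
    refine h2.congr_deriv ?_
    ring
  have hanti : AntitoneOn (fun s => Real.exp (-(c * s)) * sg r m s F x) (Set.Ici (0:ℝ)) := by
    refine antitoneOn_of_deriv_nonpos (convex_Ici 0)
      (fun s _ => (hder s).continuousAt.continuousWithinAt)
      (fun s _ => (hder s).differentiableAt.differentiableWithinAt) ?_
    intro s hs
    rw [interior_Ici] at hs
    rw [(hder s).deriv]
    have h3 : sg r m s (gf r m F) x ≤ sg r m s (fun y => c * F y) x :=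
      sg_mono r m I hI hMK _ _ x hx s hr (le_of_lt hs) h
    rw [hcst s] at h3
    exact mul_nonpos_of_nonneg_of_nonpos (Real.exp_pos _).le (by linarith)
  have h4 := hanti (Set.mem_Ici.mpr le_rfl) (Set.mem_Ici.mpr ht) ht
  simp only [mul_zero, neg_zero, Real.exp_zero, one_mul, hMK.zero] at h4
  have h5 : sg r m t F x = Real.exp (c * t) * (Real.exp (-(c * t)) * sg r m t F x) := by
    rw [← mul_assoc, ← Real.exp_add, add_neg_cancel, Real.exp_zero, one_mul]
  rw [h5]
  exact mul_le_mul_of_nonneg_left h4 (Real.exp_pos _).le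

end

theorem inv_ (h : MK) : S_INV := by
  intro S ι _ _ _ r m I hI F H x t c hx
  exact ⟨fun he => sg_congr r m I hI F H he t x hx,
    fun hr ht hle => sg_mono r m I hI h F H x hx t hr ht hle,
    fun hr ht hle => sg_expb r m I hI h F x hx t c hr ht hle⟩

end Pool.Agent.W723.NW
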